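import Mathlib

set_option autoImplicit false

/-! Averages over products of finite sets, one coordinate at a time. -/

namespace Pool.Agent.W5h34.AT

universe u

section
variable {E : Type u} [Fintype E] [DecidableEq E]

theorem sum_update (S : E → Finset ℂ) (b : E) (f : (E → ℂ) → ℝ) :
    ∑ s ∈ Fintype.piFinset S, ∑ a ∈ S b, f (Function.update s b a)
      = (S b).card * ∑ s ∈ Fintype.piFinset S, f s := by
  rw [← Finset.sum_product', Finset.mul_sum]
  have h1 : ∑ s ∈ Fintype.piFinset S, ((S b).card : ℝ) * f s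
      = ∑ x ∈ Fintype.piFinset S ×ˢ S b, f x.1 := by
    rw [Finset.sum_product]
    refine Finset.sum_congr rfl fun s _ => ?_
    change _ = ∑ _y ∈ S b, f s
    rw [Finset.sum_const, nsmul_eq_mul]
  rw [h1]
  refine Finset.sum_nbij' (fun x => (Function.update x.1 b x.2, x.1 b))
    (fun x => (Function.update x.1 b x.2, x.1 b)) ?_ ?_ ?_ ?_ ?_
  · rintro ⟨s, a⟩ h
    rw [Finset.mem_product, Fintype.mem_piFinset] at h ⊢
    refine ⟨fun e => ?_, h.1 b⟩
    by_cases he : e = b
    · subst he; simpa using h.2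
    · simpa [Function.update_of_ne he] using h.1 e
  · rintro ⟨s, a⟩ h
    rw [Finset.mem_product, Fintype.mem_piFinset] at h ⊢
    refine ⟨fun e => ?_, h.1 b⟩
    by_cases he : e = b
    · subst he; simpa using h.2
    · simpa [Function.update_of_ne he] using h.1 e
  · rintro ⟨s, a⟩ _
    simp
  · rintro ⟨s, a⟩ _
    simp
  · rintro ⟨s, a⟩ _
    rfl

/-- Jensen for an excess which is at most `γ` in total. -/
theorem exp_step {Ω : Type*} (P : Finset Ω) (m : Ω → ℝ) (hm : ∀ a, 0 ≤ m a) (γ : ℝ) (hγ1 : γ ≤ 1)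
    (hsum : ∑ a ∈ P, m a ≤ γ) (K : ℕ) (hK : 0 < K) (hP : K ≤ P.card) (x : ℝ) (hx : 1 ≤ x) :
    ∑ a ∈ P, x ^ m a ≤ P.card * (1 + (x - 1) / K) ^ γ := by
  have hK' : (0 : ℝ) < K := by exact_mod_cast hK
  have hx0 : (0 : ℝ) < x := by linarith
  have hcard : (K : ℝ) ≤ P.card := by exact_mod_cast hP
  have hpos : (0 : ℝ) < P.card := lt_of_lt_of_le hK' hcard
  have hγ0 : 0 ≤ γ := (Finset.sum_nonneg fun a _ => hm a).trans hsum
  have hmγ : ∀ a ∈ P, m a ≤ γ := fun a ha =>
    (Finset.single_le_sum (fun a _ => hm a) ha).trans hsum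
  have hbase : (1 : ℝ) ≤ 1 + (x - 1) / P.card := by
    have : 0 ≤ (x - 1) / P.card := div_nonneg (by linarith) hpos.le
    linarith
  have hmono : (1 + (x - 1) / P.card) ^ γ ≤ (1 + (x - 1) / K) ^ γ := by
    apply Real.rpow_le_rpow (by linarith) _ hγ0
    have := div_le_div_of_nonneg_left (a := x - 1) (by linarith) hK' hcard
    linarith
  refine le_trans ?_ (mul_le_mul_of_nonneg_left hmono hpos.le)
  rcases hγ0.eq_or_lt with h0 | h0
  · rw [← h0, Real.rpow_zero, mul_one]
    have : ∀ a ∈ P, x ^ m a = 1 := by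
      intro a ha
      have h1 : m a = 0 := le_antisymm (by rw [h0]; exact hmγ a ha) (hm a)
      rw [h1, Real.rpow_zero]
    rw [Finset.sum_congr rfl this]
    simp
  · have h1 : ∀ a ∈ P, x ^ m a ≤ 1 + (x ^ γ - 1) * (m a / γ) := by
      intro a ha
      have h2 : x ^ m a = (x ^ γ) ^ (m a / γ) := by
        rw [← Real.rpow_mul hx0.le, mul_div_cancel₀ _ h0.ne']
      have h3 : (1 : ℝ) ≤ x ^ γ := Real.one_le_rpow hx hγ0
      have h5 := rpow_one_add_le_one_add_mul_self (s := x ^ γ - 1) (by linarith)
        (div_nonneg (hm a) hγ0) ((div_le_one h0).2 (hmγ a ha))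
      rw [add_sub_cancel] at h5
      rw [h2]
      linarith
    have h2 : ∑ a ∈ P, x ^ m a ≤ P.card + (x ^ γ - 1) := by
      refine (Finset.sum_le_sum h1).trans ?_
      rw [Finset.sum_add_distrib, ← Finset.mul_sum, ← Finset.sum_div, Finset.sum_const,
        nsmul_eq_mul, mul_one]
      have h3 : (∑ a ∈ P, m a) / γ ≤ 1 := (div_le_one h0).2 hsum
      have h4 : (0 : ℝ) ≤ x ^ γ - 1 := by
        have : (1 : ℝ) ≤ x ^ γ := Real.one_le_rpow hx hγ0
        linarith
      nlinarith
    refine h2.trans ?_
    -- concavity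
    have ha : (0 : ℝ) ≤ 1 - 1 / (P.card : ℝ) := by
      have : (1 : ℝ) / P.card ≤ 1 := by
        rw [div_le_one hpos]
        exact le_trans (by exact_mod_cast hK) hcard
      linarith
    have hb : (0 : ℝ) ≤ 1 / (P.card : ℝ) := by positivity
    have hab : 1 - 1 / (P.card : ℝ) + 1 / (P.card : ℝ) = 1 := by ring
    have hc := (Real.concaveOn_rpow hγ0 hγ1).2 (Set.mem_Ici.2 (zero_le_one' ℝ))
      (Set.mem_Ici.2 hx0.le) ha hb hab
    simp only [smul_eq_mul, Real.one_rpow, mul_one] at hc
    have e1 : (1 - 1 / (P.card : ℝ) + 1 / P.card * x) = 1 + (x - 1) / P.card := by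
      field_simp
      ring
    rw [e1] at hc
    have e2 : (P.card : ℝ) + (x ^ γ - 1)
        = P.card * (1 - 1 / (P.card : ℝ) + 1 / P.card * x ^ γ) := by
      field_simp
      ring
    rw [e2]
    exact mul_le_mul_of_nonneg_left hc hpos.le

variable (S : E → Finset ℂ) (M : Finset E) (g : Finset E → (E → ℂ) → ℝ) (ρ : Finset E → ℝ) (c : ℝ)
  (K : ℕ)

/-- Averaging, additive form. -/
theorem average_add (hK : 0 < K) (hS : ∀ e ∈ M, K ≤ (S e).card) (h0 : ∀ s, g ∅ s ≤ c)
    (hstep : ∀ T ⊆ M, ∀ b ∈ M, b ∉ T → ∀ s,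
      ∑ a ∈ S b, max (g (insert b T) (Function.update s b a) - g T s) 0
        ≤ ρ (insert b T) - ρ T) :
    ∑ s ∈ Fintype.piFinset S, max (g M s - c) 0
      ≤ (Fintype.piFinset S).card * ((ρ M - ρ ∅) / K) := by
  have hK' : (0 : ℝ) < K := by exact_mod_cast hK
  have key : ∀ T : Finset E, T ⊆ M → ∑ s ∈ Fintype.piFinset S, max (g T s - c) 0
      ≤ (Fintype.piFinset S).card * ((ρ T - ρ ∅) / K) := by
    intro T
    induction T using Finset.induction_on with
    | empty =>
      intro _
      have : ∀ s ∈ Fintype.piFinset S, max (g ∅ s - c) 0 = 0 := fun s _ =>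
        max_eq_right (by linarith [h0 s])
      rw [Finset.sum_congr rfl this]
      simp
    | insert b T hb ih =>
      intro hT
      have hbM : b ∈ M := hT (Finset.mem_insert_self _ _)
      have hTM : T ⊆ M := fun x hx => hT (Finset.mem_insert_of_mem hx)
      have ih' := ih hTM
      set γ := ρ (insert b T) - ρ T with hγ
      have h1 := sum_update S b (fun s => max (g (insert b T) s - c) 0)
      have hγ0 : 0 ≤ γ := (Finset.sum_nonneg fun a _ => le_max_right _ _).trans
        (hstep T hTM b hbM hb (fun _ => 0))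
      have h2 : ∀ s ∈ Fintype.piFinset S,
          ∑ a ∈ S b, max (g (insert b T) (Function.update s b a) - c) 0
            ≤ (S b).card * max (g T s - c) 0 + γ := by
        intro s _
        have h3 : ∀ a ∈ S b, max (g (insert b T) (Function.update s b a) - c) 0
            ≤ max (g T s - c) 0 + max (g (insert b T) (Function.update s b a) - g T s) 0 := by
          intro a _
          apply max_le
          · have := le_max_left (g T s - c) 0
            have := le_max_left (g (insert b T) (Function.update s b a) - g T s) 0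
            linarith
          · exact add_nonneg (le_max_right _ _) (le_max_right _ _)
        refine (Finset.sum_le_sum h3).trans ?_
        rw [Finset.sum_add_distrib, Finset.sum_const, nsmul_eq_mul]
        linarith [hstep T hTM b hbM hb s]
      have h4 : ((S b).card : ℝ) * ∑ s ∈ Fintype.piFinset S, max (g (insert b T) s - c) 0
          ≤ (S b).card * ∑ s ∈ Fintype.piFinset S, max (g T s - c) 0
            + (Fintype.piFinset S).card * γ := by
        rw [← h1]
        refine (Finset.sum_le_sum h2).trans ?_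
        rw [Finset.sum_add_distrib, ← Finset.mul_sum, Finset.sum_const, nsmul_eq_mul]
      have hcard : (K : ℝ) ≤ (S b).card := by exact_mod_cast hS b hbM
      have hpos : (0 : ℝ) < (S b).card := lt_of_lt_of_le hK' hcard
      have h5 : ∑ s ∈ Fintype.piFinset S, max (g (insert b T) s - c) 0
          ≤ ∑ s ∈ Fintype.piFinset S, max (g T s - c) 0
            + (Fintype.piFinset S).card * γ / (S b).card := by
        rw [← sub_le_iff_le_add', le_div_iff₀ hpos]
        linarith
      have h6 : ((Fintype.piFinset S).card : ℝ) * γ / (S b).card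
          ≤ (Fintype.piFinset S).card * (γ / K) := by
        rw [mul_div_assoc]
        exact mul_le_mul_of_nonneg_left (div_le_div_of_nonneg_left hγ0 hK' hcard)
          (Nat.cast_nonneg _)
      calc _ ≤ _ := h5
        _ ≤ (Fintype.piFinset S).card * ((ρ T - ρ ∅) / K)
            + (Fintype.piFinset S).card * (γ / K) := add_le_add ih' h6
        _ = _ := by rw [hγ]; ring
  exact key M le_rfl

/-- Averaging, exponential form. -/
theorem average_exp (hK : 0 < K) (hS : ∀ e ∈ M, K ≤ (S e).card) (h0 : ∀ s, g ∅ s ≤ c)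
    (hstep : ∀ T ⊆ M, ∀ b ∈ M, b ∉ T → ∀ s,
      ∑ a ∈ S b, max (g (insert b T) (Function.update s b a) - g T s) 0
        ≤ ρ (insert b T) - ρ T)
    (hρ : ∀ T ⊆ M, ∀ b ∈ M, b ∉ T → ρ (insert b T) - ρ T ≤ 1)
    (x : ℝ) (hx : 1 ≤ x) :
    ∑ s ∈ Fintype.piFinset S, x ^ (g M s)
      ≤ (Fintype.piFinset S).card * ((1 + (x - 1) / K) ^ (ρ M - ρ ∅) * x ^ c) := by
  have hK' : (0 : ℝ) < K := by exact_mod_cast hK
  have hx0 : (0 : ℝ) < x := by linarith
  have hfac : 0 < 1 + (x - 1) / K := by
    have : 0 ≤ (x - 1) / K := div_nonneg (by linarith) hK'.le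
    linarith
  have key : ∀ T : Finset E, T ⊆ M → ∑ s ∈ Fintype.piFinset S, x ^ (g T s)
      ≤ (Fintype.piFinset S).card * ((1 + (x - 1) / K) ^ (ρ T - ρ ∅) * x ^ c) := by
    intro T
    induction T using Finset.induction_on with
    | empty =>
      intro _
      rw [sub_self, Real.rpow_zero, one_mul, ← nsmul_eq_mul, ← Finset.sum_const]
      exact Finset.sum_le_sum fun s _ => Real.rpow_le_rpow_of_exponent_le hx (h0 s)
    | insert b T hb ih =>
      intro hT
      have hbM : b ∈ M := hT (Finset.mem_insert_self _ _)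
      have hTM : T ⊆ M := fun y hy => hT (Finset.mem_insert_of_mem hy)
      have ih' := ih hTM
      set γ := ρ (insert b T) - ρ T with hγ
      have h1 := sum_update S b (fun s => x ^ (g (insert b T) s))
      have hcard : (K : ℝ) ≤ (S b).card := by exact_mod_cast hS b hbM
      have hpos : (0 : ℝ) < (S b).card := lt_of_lt_of_le hK' hcard
      have h2 : ∀ s ∈ Fintype.piFinset S,
          ∑ a ∈ S b, x ^ (g (insert b T) (Function.update s b a))
            ≤ ((S b).card * (1 + (x - 1) / K) ^ γ) * x ^ (g T s) := by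
        intro s _
        set m : ℂ → ℝ := fun a => max (g (insert b T) (Function.update s b a) - g T s) 0 with hm
        have hsum : ∑ a ∈ S b, m a ≤ γ := hstep T hTM b hbM hb s
        have hm0 : ∀ a, 0 ≤ m a := fun a => le_max_right _ _
        have h3 : ∀ a ∈ S b, x ^ (g (insert b T) (Function.update s b a))
            ≤ x ^ (g T s) * x ^ (m a) := by
          intro a ha
          have h4 : g (insert b T) (Function.update s b a) ≤ g T s + m a := by
            have := le_max_left (g (insert b T) (Function.update s b a) - g T s) 0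
            simp only [hm]
            linarith
          calc x ^ (g (insert b T) (Function.update s b a)) ≤ x ^ (g T s + m a) :=
                Real.rpow_le_rpow_of_exponent_le hx h4
            _ = x ^ (g T s) * x ^ (m a) := Real.rpow_add hx0 _ _
        refine (Finset.sum_le_sum h3).trans ?_
        rw [← Finset.mul_sum, mul_comm]
        apply mul_le_mul_of_nonneg_right _ (Real.rpow_nonneg hx0.le _)
        exact exp_step (S b) m hm0 γ (hρ T hTM b hbM hb) hsum K hK (hS b hbM) x hx
      have h4 : ((S b).card : ℝ) * ∑ s ∈ Fintype.piFinset S, x ^ (g (insert b T) s)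
          ≤ (S b).card * ((1 + (x - 1) / K) ^ γ * ∑ s ∈ Fintype.piFinset S, x ^ (g T s)) := by
        rw [← h1, ← mul_assoc, Finset.mul_sum]
        exact Finset.sum_le_sum h2
      have h5 : ∑ s ∈ Fintype.piFinset S, x ^ (g (insert b T) s)
          ≤ (1 + (x - 1) / K) ^ γ * ∑ s ∈ Fintype.piFinset S, x ^ (g T s) :=
        le_of_mul_le_mul_left h4 hpos
      calc _ ≤ _ := h5
        _ ≤ (1 + (x - 1) / K) ^ γ * ((Fintype.piFinset S).card
            * ((1 + (x - 1) / K) ^ (ρ T - ρ ∅) * x ^ c)) :=
              mul_le_mul_of_nonneg_left ih' (Real.rpow_nonneg hfac.le _)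
        _ = _ := by
              have e : ρ (insert b T) - ρ ∅ = γ + (ρ T - ρ ∅) := by rw [hγ]; ring
              rw [e, Real.rpow_add hfac]
              ring
  exact key M le_rfl

end

end Pool.Agent.W5h34.AT
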