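import Pool.Agent.W649.ZL.Generic

set_option autoImplicit false
set_option linter.unusedSectionVars false

open scoped InnerProductSpace InnerProduct ENNReal

/-! Finitely many closed invariant subspaces with independent images. -/

namespace Pool.Agent.W5h34.AT

open Pool.Agent.W649.ZL

universe u v w z

section
variable {G : Type u} {I : Type v} {J : Type w} [Group G]

theorem memlp_ins {n : ℕ} (b : Fin n) (h : EE G J) :
    Memℓp (fun x : G × (Fin n × J) => if x.2.1 = b then h (x.1, x.2.2) else 0) 2 := by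
  rw [memlp_two_iff]
  have h1 := (memlp_two_iff _).1 h.2
  have hinj : Function.Injective (fun x : G × J => ((x.1, (b, x.2)) : G × (Fin n × J))) := by
    rintro ⟨a, c⟩ ⟨a', c'⟩ hh
    simp only [Prod.mk.injEq, true_and] at hh
    rw [hh.1, hh.2]
  rw [← hinj.summable_iff]
  · refine h1.congr fun x => ?_
    simp
  · rintro ⟨x, c, j⟩ hx
    have hc : c ≠ b := by
      rintro rfl
      exact hx ⟨(x, j), rfl⟩
    simp [hc]

/-- insertion into the `b`-th coordinate -/
noncomputable def insFun {n : ℕ} (b : Fin n) (h : EE G J) : EE G (Fin n × J) :=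
  ⟨fun x => if x.2.1 = b then h (x.1, x.2.2) else 0, memlp_ins b h⟩

theorem coord_insFun {n : ℕ} (b : Fin n) (h : EE G J) : coord b (insFun b h) = h := by
  ext ⟨x, j⟩
  rw [coord_apply]
  change (if b = b then h (x, j) else 0) = _
  rw [if_pos rfl]

theorem coord_insFun_ne {n : ℕ} {b c : Fin n} (hbc : c ≠ b) (h : EE G J) :
    coord c (insFun b h) = 0 := by
  ext ⟨x, j⟩
  rw [coord_apply]
  change (if c = b then h (x, j) else 0) = _
  rw [if_neg hbc]
  rfl

variable [Fintype I] [Fintype J]

theorem sum_vd_le {n : ℕ} (L : Fin n → Submodule ℂ (EE G J)) (hL : ∀ b, W649.ZL.Inv (L b))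
    (hc : ∀ b, IsClosed (L b : Set (EE G J))) :
    ∃ P : Submodule ℂ (EE G (Fin n × J)), W649.ZL.Inv P ∧ IsClosed (P : Set (EE G (Fin n × J))) ∧
      (∀ f, f ∈ P ↔ ∀ b, coord b f ∈ L b) ∧ ∑ b, vd (L b) ≤ vd P := by
  classical
  have key : ∀ m : ℕ, m ≤ n → ∃ W : Submodule ℂ (EE G (Fin n × J)), W649.ZL.Inv W ∧
      IsClosed (W : Set (EE G (Fin n × J))) ∧
      (∀ f, f ∈ W ↔ (∀ b, coord b f ∈ L b) ∧ ∀ b : Fin n, m ≤ b.1 → coord b f = 0) ∧
      ∑ b : Fin n, (if b.1 < m then vd (L b) else 0) ≤ vd W := by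
    intro m
    induction m with
    | zero =>
      intro _
      refine ⟨⊥, ?_, by simp, ?_, by simp [vd_bot]⟩
      · rintro k f hf
        rw [Submodule.mem_bot] at hf
        rw [hf, tr_zero]
        exact Submodule.zero_mem _
      · intro f
        rw [Submodule.mem_bot]
        constructor
        · rintro rfl
          exact ⟨fun b => by rw [map_zero]; exact Submodule.zero_mem _, fun b _ => map_zero _⟩
        · rintro ⟨-, h⟩
          exact eq_zero_of_coord f (fun b => h b (Nat.zero_le _))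
    | succ m ih =>
      intro hm
      obtain ⟨W, h1, h2, h3, h4⟩ := ih (by omega)
      let c : Fin n := ⟨m, by omega⟩
      -- the new space
      let V : Submodule ℂ (EE G (Fin n × J)) :=
        (⨅ b : Fin n, (L b).comap ((coord b : EE G (Fin n × J) →L[ℂ] EE G J) :
          EE G (Fin n × J) →ₗ[ℂ] EE G J)) ⊓
          ⨅ b : {b : Fin n // m + 1 ≤ b.1},
            LinearMap.ker ((coord (b : Fin n) : EE G (Fin n × J) →L[ℂ] EE G J) :
              EE G (Fin n × J) →ₗ[ℂ] EE G J)
      have hV : ∀ f, f ∈ V ↔ (∀ b, coord b f ∈ L b) ∧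
          ∀ b : Fin n, m + 1 ≤ b.1 → coord b f = 0 := by
        intro f
        change f ∈ (_ ⊓ _ : Submodule ℂ (EE G (Fin n × J))) ↔ _
        rw [Submodule.mem_inf, Submodule.mem_iInf, Submodule.mem_iInf]
        constructor
        · rintro ⟨a, b⟩
          exact ⟨fun x => a x, fun x hx => b ⟨x, hx⟩⟩
        · rintro ⟨a, b⟩
          exact ⟨fun x => a x, fun x => b x.1 x.2⟩
      have hVinv : W649.ZL.Inv V := by
        intro k f hf
        rw [hV] at hf ⊢
        refine ⟨fun b => ?_, fun b hb => ?_⟩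
        · rw [coord_tr]; exact hL b k _ (hf.1 b)
        · rw [coord_tr, hf.2 b hb, tr_zero]
      have hVc : IsClosed (V : Set (EE G (Fin n × J))) := by
        have : (V : Set (EE G (Fin n × J))) =
            (⋂ b : Fin n, (coord (J := J) b) ⁻¹' (L b : Set (EE G J))) ∩
              ⋂ b : {b : Fin n // m + 1 ≤ b.1}, (coord (J := J) (b : Fin n)) ⁻¹' {0} := by
          ext f
          rw [SetLike.mem_coe, hV]
          simp
        rw [this]
        refine IsClosed.inter (isClosed_iInter fun b => ?_) (isClosed_iInter fun b => ?_)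
        · exact (hc b).preimage (coord (J := J) b).continuous
        · exact isClosed_singleton.preimage (coord (J := J) (b : Fin n)).continuous
      refine ⟨V, hVinv, hVc, hV, ?_⟩
      have h5 := rank_nullity (coord (J := J) c) (coord_tr c) hVinv hVc
      have h6 : V ⊓ LinearMap.ker ((coord c : EE G (Fin n × J) →L[ℂ] EE G J) :
          EE G (Fin n × J) →ₗ[ℂ] EE G J) = W := by
        ext f
        rw [Submodule.mem_inf, hV, h3]
        constructor
        · rintro ⟨⟨a1, a2⟩, a3⟩
          refine ⟨a1, fun b hb => ?_⟩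
          rcases Nat.lt_or_eq_of_le hb with hb | hb
          · exact a2 b hb
          · have : b = c := Fin.ext hb.symm
            rw [this]; exact a3
        · rintro ⟨a1, a2⟩
          exact ⟨⟨a1, fun b hb => a2 b (by omega)⟩, a2 c le_rfl⟩
      have h7 : vd (L c) ≤ vd (V.map ((coord c : EE G (Fin n × J) →L[ℂ] EE G J) :
          EE G (Fin n × J) →ₗ[ℂ] EE G J)) := by
        apply vd_mono
        intro y hy
        refine ⟨insFun c y, ?_, coord_insFun c y⟩
        rw [SetLike.mem_coe, hV]
        constructor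
        · intro b
          by_cases hb : b = c
          · rw [hb, coord_insFun]; exact hy
          · rw [coord_insFun_ne hb]; exact Submodule.zero_mem _
        · intro b hb
          apply coord_insFun_ne
          rintro rfl
          exact absurd hb (by simp [c])
      rw [h5, h6]
      have h8 : ∑ b : Fin n, (if b.1 < m + 1 then vd (L b) else 0)
          = ∑ b : Fin n, (if b.1 < m then vd (L b) else 0) + vd (L c) := by
        have : ∀ b : Fin n, (if b.1 < m + 1 then vd (L b) else 0)
            = (if b.1 < m then vd (L b) else 0) + (if b = c then vd (L c) else 0) := by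
          intro b
          by_cases hb : b = c
          · subst hb
            simp [c]
          · have hb' : b.1 ≠ m := fun h => hb (Fin.ext h)
            by_cases hlt : b.1 < m
            · rw [if_pos (by omega), if_pos hlt, if_neg hb, add_zero]
            · rw [if_neg (by omega), if_neg hlt, if_neg hb, add_zero]
        rw [Finset.sum_congr rfl fun b _ => this b, Finset.sum_add_distrib]
        simp
      rw [h8]
      linarith
  obtain ⟨W, h1, h2, h3, h4⟩ := key n le_rfl
  refine ⟨W, h1, h2, fun f => ?_, ?_⟩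
  · rw [h3]
    exact ⟨fun h => h.1, fun h => ⟨h, fun b hb => absurd b.2 (by omega)⟩⟩
  · refine le_trans (le_of_eq ?_) h4
    exact Finset.sum_congr rfl fun b _ => by rw [if_pos b.2]

/-- If the sums of the images of vectors of the `L b` under `φ` vanish only for zero vectors then
the sum of the dimensions of the `L b` is at most the dimension of a space which contains the
images. -/
theorem sum_vd_le_of_indep {n : ℕ} (L : Fin n → Submodule ℂ (EE G J)) (hL : ∀ b, W649.ZL.Inv (L b))
    (hc : ∀ b, IsClosed (L b : Set (EE G J))) (φ : EE G J →L[ℂ] EE G I) (hφ : Eqv φ)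
    (hind : ∀ v : Fin n → EE G J, (∀ b, v b ∈ L b) → ∑ b, φ (v b) = 0 → ∀ b, v b = 0)
    (Q : Submodule ℂ (EE G I)) (hQ : ∀ b, ∀ v ∈ L b, φ v ∈ Q) :
    ∑ b, vd (L b) ≤ vd Q := by
  obtain ⟨P, h1, h2, h3, h4⟩ := sum_vd_le L hL hc
  let Ψ : EE G (Fin n × J) →L[ℂ] EE G I := ∑ b : Fin n, φ.comp (coord b)
  have hΨ : ∀ f, Ψ f = ∑ b, φ (coord b f) := by
    intro f
    change (∑ b : Fin n, φ.comp (coord b)) f = _
    rw [sum_apply]
    rfl
  have hΨe : Eqv Ψ := by
    intro k f
    rw [hΨ, hΨ, tr_sum]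
    refine Finset.sum_congr rfl fun b _ => ?_
    rw [coord_tr, hφ]
  have h5 := rank_nullity Ψ hΨe h1 h2
  have h6 : P ⊓ LinearMap.ker (Ψ : EE G (Fin n × J) →ₗ[ℂ] EE G I) = ⊥ := by
    rw [eq_bot_iff]
    rintro f ⟨hf1, hf2⟩
    have hf2' : Ψ f = 0 := hf2
    rw [hΨ] at hf2'
    exact eq_zero_of_coord f (hind (fun b => coord b f) ((h3 f).1 hf1) hf2')
  rw [h6, vd_bot, zero_add] at h5
  have h7 : vd (P.map (Ψ : EE G (Fin n × J) →ₗ[ℂ] EE G I)) ≤ vd Q := by
    apply vd_mono
    rintro y ⟨f, hf, rfl⟩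
    change Ψ f ∈ Q
    rw [hΨ]
    exact Submodule.sum_mem _ fun b _ => hQ b _ ((h3 f).1 hf b)
  linarith

/-- The dimension of the part of `K` orthogonal to `N`. -/
theorem vd_inf_orthogonal {K N : Submodule ℂ (EE G J)} (hK : W649.ZL.Inv K)
    (hKc : IsClosed (K : Set (EE G J))) (hN : W649.ZL.Inv N) (hNc : IsClosed (N : Set (EE G J))) :
    vd K - vd N ≤ vd (K ⊓ Nᗮ) := by
  have : CompleteSpace N := hNc.completeSpace_coe
  have h1 := rank_nullity (N.starProjection) (proj_tr hN) hK hKc
  have h2 : LinearMap.ker (N.starProjection : EE G J →ₗ[ℂ] EE G J) = Nᗮ := by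
    ext f
    exact Submodule.starProjection_apply_eq_zero_iff N
  rw [h2] at h1
  have h3 : vd (K.map (N.starProjection : EE G J →ₗ[ℂ] EE G J)) ≤ vd N := by
    apply vd_mono
    rintro y ⟨f, -, rfl⟩
    exact Submodule.starProjection_apply_mem N f
  linarith

theorem orth_inv {N : Submodule ℂ (EE G J)} (hN : W649.ZL.Inv N) : W649.ZL.Inv Nᗮ := by
  intro k f hf
  rw [Submodule.mem_orthogonal] at hf ⊢
  intro y hy
  have h1 := hf (tr k⁻¹ y) (hN k⁻¹ y hy)
  rw [← h1, inner_tr_left, inv_inv]

/-- Vandermonde -/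
theorem eq_zero_of_powers {n : ℕ} (s : Fin n → ℂ) (hs : Function.Injective s)
    (v : Fin n → EE G J) (h : ∀ k : ℕ, ∑ b, s b ^ k • v b = 0) : ∀ b, v b = 0 := by
  have h1 : ∀ x : G × J, (fun b => v b x) = 0 := by
    intro x
    apply Matrix.eq_zero_of_forall_pow_sum_mul_pow_eq_zero hs
    intro i
    have h2 := congrArg (fun f : EE G J => f x) (h i)
    simp only at h2
    rw [sum_apply_EE] at h2
    have h3 : (0 : EE G J) x = 0 := rfl
    rw [h3] at h2
    rw [← h2]
    refine Finset.sum_congr rfl fun b _ => ?_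
    change _ = s b ^ (i : ℕ) * v b x
    ring
  intro b
  ext x
  exact congrFun (h1 x) b

/-- **The basic inequality.** The dimensions of the spaces `M ∩ ker (t + s φ)`, for different
complex numbers `s`, exceed the dimension of `M ∩ ker φ` by a total of at most
`vd M - vd (M ∩ ker φ)` and at most the number of coordinates of the target. -/
theorem pencil {n : ℕ} (M : Submodule ℂ (EE G J)) (hM : W649.ZL.Inv M) (hMc : IsClosed (M : Set (EE G J)))
    (t φ : EE G J →L[ℂ] EE G I) (ht : Eqv t) (hφ : Eqv φ) (s : Fin n → ℂ)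
    (hs : Function.Injective s) :
    ∑ b, max (vd (M ⊓ LinearMap.ker ((t + s b • φ : EE G J →L[ℂ] EE G I) :
        EE G J →ₗ[ℂ] EE G I))
      - vd (M ⊓ LinearMap.ker (φ : EE G J →ₗ[ℂ] EE G I))) 0
      ≤ min (Fintype.card I : ℝ)
        (vd M - vd (M ⊓ LinearMap.ker (φ : EE G J →ₗ[ℂ] EE G I))) := by
  set D := M ⊓ LinearMap.ker (φ : EE G J →ₗ[ℂ] EE G I) with hD
  set K : Fin n → Submodule ℂ (EE G J) := fun b =>
    M ⊓ LinearMap.ker ((t + s b • φ : EE G J →L[ℂ] EE G I) : EE G J →ₗ[ℂ] EE G I) with hK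
  have hDi : W649.ZL.Inv D := inv_inf hM (inv_ker φ hφ)
  have hDc : IsClosed (D : Set (EE G J)) := by
    rw [hD, Submodule.coe_inf]; exact hMc.inter (ContinuousLinearMap.isClosed_ker φ)
  have he : ∀ b, Eqv (t + s b • φ) := by
    intro b k f
    change t (tr k f) + s b • φ (tr k f) = tr k (t f + s b • φ f)
    rw [ht, hφ, tr_add, tr_smul]
  have hKi : ∀ b, W649.ZL.Inv (K b) := fun b => inv_inf hM (inv_ker _ (he b))
  have hKc : ∀ b, IsClosed (K b : Set (EE G J)) := by
    intro b
    rw [hK]
    simp only [Submodule.coe_inf]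
    exact hMc.inter (ContinuousLinearMap.isClosed_ker (t + s b • φ))
  set L : Fin n → Submodule ℂ (EE G J) := fun b => K b ⊓ Dᗮ with hLdef
  have hLi : ∀ b, W649.ZL.Inv (L b) := fun b => inv_inf (hKi b) (orth_inv hDi)
  have hLc : ∀ b, IsClosed (L b : Set (EE G J)) := by
    intro b
    rw [hLdef]
    simp only [Submodule.coe_inf]
    exact (hKc b).inter (Submodule.isClosed_orthogonal D)
  have hKmem : ∀ b v, v ∈ K b ↔ v ∈ M ∧ t v + s b • φ v = 0 := fun b v => Iff.rfl
  -- independence
  have hind : ∀ v : Fin n → EE G J, (∀ b, v b ∈ L b) → ∑ b, φ (v b) = 0 → ∀ b, v b = 0 := by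
    intro v hv h0
    apply eq_zero_of_powers s hs v
    have hstep : ∀ k : ℕ, ∑ b, s b ^ k • φ (v b) = 0 → ∑ b, s b ^ k • v b = 0 := by
      intro k hk
      have h1 : (∑ b, s b ^ k • v b) ∈ D := by
        refine ⟨Submodule.sum_mem _ fun b _ => Submodule.smul_mem _ _ (hv b).1.1, ?_⟩
        change φ (∑ b, s b ^ k • v b) = 0
        rw [map_sum, ← hk]
        exact Finset.sum_congr rfl fun b _ => map_smul _ _ _
      have h2 : (∑ b, s b ^ k • v b) ∈ Dᗮ :=
        Submodule.sum_mem _ fun b _ => Submodule.smul_mem _ _ (hv b).2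
      have h3 := Submodule.inner_right_of_mem_orthogonal h1 h2
      exact inner_self_eq_zero.1 h3
    have hall : ∀ k : ℕ, ∑ b, s b ^ k • φ (v b) = 0 := by
      intro k
      induction k with
      | zero => simpa using h0
      | succ k ih =>
        have h1 := congrArg t (hstep k ih)
        rw [map_zero, map_sum] at h1
        have h2 : ∀ b, t (s b ^ k • v b) = -(s b ^ (k + 1) • φ (v b)) := by
          intro b
          have h3 : t (v b) + s b • φ (v b) = 0 := ((hKmem b (v b)).1 (hv b).1).2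
          rw [map_smul, eq_neg_of_add_eq_zero_left h3, smul_neg, smul_smul, pow_succ]
        rw [Finset.sum_congr rfl fun b _ => h2 b, Finset.sum_neg_distrib, neg_eq_zero] at h1
        exact h1
    exact fun k => hstep k (hall k)
  have hmax : ∀ b, max (vd (K b) - vd D) 0 ≤ vd (L b) := fun b =>
    max_le (vd_inf_orthogonal (hKi b) (hKc b) hDi hDc) (vd_nonneg _)
  have hsum : ∑ b, max (vd (K b) - vd D) 0 ≤ ∑ b, vd (L b) :=
    Finset.sum_le_sum fun b _ => hmax b
  refine hsum.trans (le_min ?_ ?_)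
  · have h1 := sum_vd_le_of_indep L hLi hLc φ hφ hind ⊤ (fun _ _ _ => trivial)
    rwa [vd_top] at h1
  · have h1 := sum_vd_le_of_indep L hLi hLc (ContinuousLinearMap.id ℂ (EE G J))
      (fun _ _ => rfl) (by
        intro v hv h0
        apply hind v hv
        rw [← map_sum]
        have h2 : ∑ b, v b = 0 := h0
        rw [h2, map_zero]) (M ⊓ Dᗮ) (fun b v hv => ⟨hv.1.1, hv.2⟩)
    rwa [vd_sub hDc hMc inf_le_left] at h1

end

end Pool.Agent.W5h34.AT
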