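import Pool.Agent.W5h34.AT.Ind
import Pool.Agent.W5h34.AT.Comb

set_option autoImplicit false
set_option linter.unusedSectionVars false

open scoped InnerProductSpace InnerProduct ENNReal

/-! Kernels of families of columns with random coefficients. -/

namespace Pool.Agent.W5h34.AT

open Pool.Agent.W649.ZL

universe u v w z y

section
variable {G : Type u} {I : Type v} {J : Type w} [Group G]

/-- the common zeros of the operators in `𝒯` -/
def Z (𝒯 : Set (EE G J →L[ℂ] EE G Unit)) : Submodule ℂ (EE G J) where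
  carrier := {f | ∀ T ∈ 𝒯, T f = 0}
  add_mem' := fun {f g} hf hg T hT => by rw [map_add, hf T hT, hg T hT, add_zero]
  zero_mem' := fun T _ => map_zero T
  smul_mem' := fun c f hf T hT => by rw [map_smul, hf T hT, smul_zero]

theorem mem_Z (𝒯 : Set (EE G J →L[ℂ] EE G Unit)) (f : EE G J) : f ∈ Z 𝒯 ↔ ∀ T ∈ 𝒯, T f = 0 :=
  Iff.rfl

theorem Z_closed (𝒯 : Set (EE G J →L[ℂ] EE G Unit)) : IsClosed (Z 𝒯 : Set (EE G J)) := by
  have : (Z 𝒯 : Set (EE G J)) = ⋂ T : 𝒯, (T : EE G J →L[ℂ] EE G Unit) ⁻¹' {0} := by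
    ext f
    rw [SetLike.mem_coe, mem_Z]
    simp
  rw [this]
  exact isClosed_iInter fun T => isClosed_singleton.preimage (T : EE G J →L[ℂ] EE G Unit).continuous

theorem Z_inv (𝒯 : Set (EE G J →L[ℂ] EE G Unit)) (h : ∀ T ∈ 𝒯, Eqv T) : W649.ZL.Inv (Z 𝒯) := by
  intro k f hf T hT
  rw [h T hT, hf T hT, tr_zero]

variable [Fintype I] [Fintype J]

theorem pencil_finset (M : Submodule ℂ (EE G J)) (hM : W649.ZL.Inv M)
    (hMc : IsClosed (M : Set (EE G J))) (t φ : EE G J →L[ℂ] EE G I) (ht : Eqv t) (hφ : Eqv φ)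
    (S : Finset ℂ) :
    ∑ a ∈ S, max (vd (M ⊓ LinearMap.ker ((t + a • φ : EE G J →L[ℂ] EE G I) :
        EE G J →ₗ[ℂ] EE G I))
      - vd (M ⊓ LinearMap.ker (φ : EE G J →ₗ[ℂ] EE G I))) 0
      ≤ min (Fintype.card I : ℝ)
        (vd M - vd (M ⊓ LinearMap.ker (φ : EE G J →ₗ[ℂ] EE G I))) := by
  have h := pencil M hM hMc t φ ht hφ (fun b : Fin S.card => ((S.equivFin.symm b : S) : ℂ))
    (fun a b hab => S.equivFin.symm.injective (Subtype.ext hab))
  refine le_trans (le_of_eq ?_) h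
  rw [← Finset.sum_coe_sort S]
  exact (Equiv.sum_comp S.equivFin.symm (fun a : S =>
    max (vd (M ⊓ LinearMap.ker ((t + (a : ℂ) • φ : EE G J →L[ℂ] EE G I) :
        EE G J →ₗ[ℂ] EE G I))
      - vd (M ⊓ LinearMap.ker (φ : EE G J →ₗ[ℂ] EE G I))) 0)).symm

theorem submod {W Y : Submodule ℂ (EE G J)} (hWY : W ≤ Y) (hW : W649.ZL.Inv W)
    (hWc : IsClosed (W : Set (EE G J))) (hY : W649.ZL.Inv Y) (hYc : IsClosed (Y : Set (EE G J)))
    (φ : EE G J →L[ℂ] EE G I) (hφ : Eqv φ) :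
    vd W - vd (W ⊓ LinearMap.ker (φ : EE G J →ₗ[ℂ] EE G I))
      ≤ vd Y - vd (Y ⊓ LinearMap.ker (φ : EE G J →ₗ[ℂ] EE G I)) := by
  have h1 := rank_nullity φ hφ hW hWc
  have h2 := rank_nullity φ hφ hY hYc
  have h3 : vd (W.map (φ : EE G J →ₗ[ℂ] EE G I)) ≤ vd (Y.map (φ : EE G J →ₗ[ℂ] EE G I)) :=
    vd_mono (Submodule.map_mono hWY)
  linarith

theorem gain_le {Y : Submodule ℂ (EE G J)} (hY : W649.ZL.Inv Y)
    (hYc : IsClosed (Y : Set (EE G J))) (φ : EE G J →L[ℂ] EE G I) (hφ : Eqv φ) :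
    vd Y - vd (Y ⊓ LinearMap.ker (φ : EE G J →ₗ[ℂ] EE G I)) ≤ Fintype.card I := by
  have h2 := rank_nullity φ hφ hY hYc
  have h3 := vd_le_card (Y.map (φ : EE G J →ₗ[ℂ] EE G I))
  linarith

end

section
variable {G : Type u} {J : Type w} [Group G] [Fintype J] {E : Type z} {C : Type y} [Fintype E]
  [DecidableEq E] [DecidableEq C]

/-- the column `j`: a fixed operator plus the sum of the `s e • φ e` over the variables `e` of this
column -/
noncomputable def opc (col : E → C) (A : C → (EE G J →L[ℂ] EE G Unit))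
    (φ : E → (EE G J →L[ℂ] EE G Unit)) (s : E → ℂ) (j : C) : EE G J →L[ℂ] EE G Unit :=
  A j + ∑ e ∈ Finset.univ.filter (fun e => col e = j), s e • φ e

variable (col : E → C) (A : C → (EE G J →L[ℂ] EE G Unit)) (φ : E → (EE G J →L[ℂ] EE G Unit))

theorem opc_apply (s : E → ℂ) (j : C) (f : EE G J) :
    opc col A φ s j f = A j f + ∑ e ∈ Finset.univ.filter (fun e => col e = j), s e • φ e f := by
  unfold opc
  rw [add_apply, sum_apply]
  rfl

theorem opc_eqv (hA : ∀ j, Eqv (A j)) (hφ : ∀ e, Eqv (φ e)) (s : E → ℂ) (j : C) :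
    Eqv (opc col A φ s j) := by
  intro k f
  rw [opc_apply, opc_apply, tr_add, tr_sum, hA]
  congr 1
  exact Finset.sum_congr rfl fun e _ => by rw [hφ, tr_smul]

theorem opc_update_ne (s : E → ℂ) (b : E) (a : ℂ) (j : C) (hj : j ≠ col b) :
    opc col A φ (Function.update s b a) j = opc col A φ s j := by
  unfold opc
  congr 1
  refine Finset.sum_congr rfl fun e he => ?_
  rw [Finset.mem_filter] at he
  have : e ≠ b := by
    rintro rfl
    exact hj he.2.symm
  rw [Function.update_of_ne this]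

theorem opc_update (s : E → ℂ) (b : E) (a : ℂ) :
    opc col A φ (Function.update s b a) (col b)
      = opc col A φ (Function.update s b 0) (col b) + a • φ b := by
  unfold opc
  rw [add_assoc]
  congr 1
  have hb : b ∈ Finset.univ.filter (fun e => col e = col b) := by simp
  rw [← Finset.add_sum_erase _ _ hb, ← Finset.add_sum_erase _ _ hb, Function.update_self,
    Function.update_self, zero_smul, zero_add, add_comm]
  congr 1
  refine Finset.sum_congr rfl fun e he => ?_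
  rw [Finset.mem_erase] at he
  rw [Function.update_of_ne he.1, Function.update_of_ne he.1]

/-- the intermediate spaces -/
def U (M T : Finset E) (s : E → ℂ) : Submodule ℂ (EE G J) :=
  Z ({O | ∃ j, (∀ e ∈ M, e ∉ T → col e ≠ j) ∧ O = opc col A φ s j} ∪ {O | ∃ e ∈ M, e ∉ T ∧ O = φ e})

theorem mem_U (M T : Finset E) (s : E → ℂ) (f : EE G J) : f ∈ U col A φ M T s ↔
    (∀ j, (∀ e ∈ M, e ∉ T → col e ≠ j) → opc col A φ s j f = 0) ∧
      ∀ e ∈ M, e ∉ T → φ e f = 0 := by
  unfold U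
  rw [mem_Z]
  constructor
  · intro h
    exact ⟨fun j hj => h _ (Or.inl ⟨j, hj, rfl⟩), fun e he heT => h _ (Or.inr ⟨e, he, heT, rfl⟩)⟩
  · rintro ⟨h1, h2⟩ O (⟨j, hj, rfl⟩ | ⟨e, he, heT, rfl⟩)
    · exact h1 j hj
    · exact h2 e he heT

/-- the potential -/
noncomputable def pot (M T : Finset E) : ℝ := vd (Z (φ '' {e | e ∈ M ∧ e ∉ T}))

omit [Fintype E] in
theorem pot_insert (M T : Finset E) (b : E) (hb : b ∈ M) (hbT : b ∉ T) :
    pot φ M (insert b T) - pot φ M T = vd (Z (φ '' {e | e ∈ M ∧ e ∉ insert b T}))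
      - vd (Z (φ '' {e | e ∈ M ∧ e ∉ insert b T})
        ⊓ LinearMap.ker (φ b : EE G J →ₗ[ℂ] EE G Unit)) := by
  unfold pot
  congr 2
  ext f
  rw [Submodule.mem_inf, mem_Z, mem_Z]
  constructor
  · intro h
    refine ⟨?_, h _ ⟨b, ⟨hb, hbT⟩, rfl⟩⟩
    rintro O ⟨e, he, rfl⟩
    exact h _ ⟨e, ⟨he.1, fun h' => he.2 (Finset.mem_insert_of_mem h')⟩, rfl⟩
  · rintro ⟨h1, h2⟩ O ⟨e, he, rfl⟩
    by_cases heb : e = b
    · rw [heb]; exact h2
    · exact h1 _ ⟨e, ⟨he.1, by rw [Finset.mem_insert]; have := he.2; tauto⟩, rfl⟩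

omit [Fintype E] in
theorem pot_le (hφ : ∀ e, Eqv (φ e)) (M T : Finset E) (b : E) (hb : b ∈ M) (hbT : b ∉ T) :
    pot φ M (insert b T) - pot φ M T ≤ 1 := by
  rw [pot_insert φ M T b hb hbT]
  refine (gain_le (Z_inv _ ?_) (Z_closed _) (φ b) (hφ b)).trans (by simp)
  rintro O ⟨e, -, rfl⟩
  exact hφ e

theorem step (hA : ∀ j, Eqv (A j)) (hφ : ∀ e, Eqv (φ e)) (M : Finset E)
    (hM : Set.InjOn col M) (T : Finset E) (b : E) (hb : b ∈ M) (hbT : b ∉ T)
    (s : E → ℂ) (S : Finset ℂ) :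
    ∑ a ∈ S, max (vd (U col A φ M (insert b T) (Function.update s b a)) - vd (U col A φ M T s)) 0
      ≤ pot φ M (insert b T) - pot φ M T := by
  let W : Submodule ℂ (EE G J) :=
    Z ({O | ∃ j, (∀ e ∈ M, e ∉ T → col e ≠ j) ∧ O = opc col A φ s j} ∪
      {O | ∃ e ∈ M, e ∉ insert b T ∧ O = φ e})
  have hW : ∀ f, f ∈ W ↔ (∀ j, (∀ e ∈ M, e ∉ T → col e ≠ j) → opc col A φ s j f = 0) ∧
      ∀ e ∈ M, e ∉ insert b T → φ e f = 0 := by
    intro f
    change f ∈ Z _ ↔ _
    rw [mem_Z]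
    constructor
    · intro h
      exact ⟨fun j hj => h _ (Or.inl ⟨j, hj, rfl⟩), fun e he heT => h _ (Or.inr ⟨e, he, heT, rfl⟩)⟩
    · rintro ⟨h1, h2⟩ O (⟨j, hj, rfl⟩ | ⟨e, he, heT, rfl⟩)
      · exact h1 j hj
      · exact h2 e he heT
  have hWi : W649.ZL.Inv W := by
    apply Z_inv
    rintro O (⟨j, hj, rfl⟩ | ⟨e, he, heT, rfl⟩)
    · exact opc_eqv col A φ hA hφ s j
    · exact hφ e
  have hWc : IsClosed (W : Set (EE G J)) := Z_closed _
  have h1 : U col A φ M T s = W ⊓ LinearMap.ker (φ b : EE G J →ₗ[ℂ] EE G Unit) := by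
    ext f
    rw [Submodule.mem_inf, hW, mem_U]
    constructor
    · rintro ⟨h1, h2⟩
      exact ⟨⟨h1, fun e he heT => h2 e he (fun h => heT (Finset.mem_insert_of_mem h))⟩,
        h2 b hb hbT⟩
    · rintro ⟨⟨h1, h2⟩, h3⟩
      refine ⟨h1, fun e he heT => ?_⟩
      by_cases heb : e = b
      · rw [heb]; exact h3
      · exact h2 e he (by rw [Finset.mem_insert]; tauto)
  have h2 : ∀ a : ℂ, U col A φ M (insert b T) (Function.update s b a)
      = W ⊓ LinearMap.ker ((opc col A φ (Function.update s b 0) (col b) + a • φ b :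
        EE G J →L[ℂ] EE G Unit) : EE G J →ₗ[ℂ] EE G Unit) := by
    intro a
    rw [← opc_update]
    ext f
    rw [Submodule.mem_inf, hW, mem_U]
    constructor
    · rintro ⟨h3, h4⟩
      refine ⟨⟨fun j hj => ?_, h4⟩, ?_⟩
      · have hjb : j ≠ col b := fun h => hj b hb hbT h.symm
        rw [← opc_update_ne col A φ s b a j hjb]
        exact h3 j (fun e he heT => hj e he (fun h => heT (Finset.mem_insert_of_mem h)))
      · apply h3 (col b)
        intro e he heT hcol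
        exact heT (by rw [hM he hb hcol]; exact Finset.mem_insert_self _ _)
    · rintro ⟨⟨h3, h4⟩, h5⟩
      refine ⟨fun j hj => ?_, h4⟩
      by_cases hjb : j = col b
      · rw [hjb]; exact h5
      · rw [opc_update_ne col A φ s b a j hjb]
        apply h3 j
        intro e he heT
        by_cases heb : e = b
        · rw [heb]; exact fun h => hjb h.symm
        · exact hj e he (by rw [Finset.mem_insert]; tauto)
  have h3 := pencil_finset W hWi hWc (opc col A φ (Function.update s b 0) (col b)) (φ b)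
    (opc_eqv col A φ hA hφ _ _) (hφ b) S
  rw [h1]
  have h4 : ∀ a ∈ S, max (vd (U col A φ M (insert b T) (Function.update s b a))
      - vd (W ⊓ LinearMap.ker (φ b : EE G J →ₗ[ℂ] EE G Unit))) 0
      = max (vd (W ⊓ LinearMap.ker ((opc col A φ (Function.update s b 0) (col b) + a • φ b :
        EE G J →L[ℂ] EE G Unit) : EE G J →ₗ[ℂ] EE G Unit))
      - vd (W ⊓ LinearMap.ker (φ b : EE G J →ₗ[ℂ] EE G Unit))) 0 := by
    intro a _
    rw [h2]
  rw [Finset.sum_congr rfl h4]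
  refine (h3.trans (min_le_right _ _)).trans ?_
  rw [pot_insert φ M T b hb hbT]
  refine submod (fun f hf => ?_) hWi hWc (Z_inv _ ?_) (Z_closed _) (φ b) (hφ b)
  · rw [mem_Z]
    rintro O ⟨e, he, rfl⟩
    exact ((hW f).1 hf).2 e he.1 he.2
  · rintro O ⟨e, -, rfl⟩
    exact hφ e

theorem coeff_average (hA : ∀ j, Eqv (A j)) (hφ : ∀ e, Eqv (φ e)) (M : Finset E)
    (hM : Set.InjOn col M) (S : E → Finset ℂ) (K : ℕ) (hK : 0 < K)
    (hS : ∀ e ∈ M, K ≤ (S e).card) :
    (∑ s ∈ Fintype.piFinset S,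
      max (vd (Z (Set.range (opc col A φ s))) - vd (Z (φ '' (M : Set E)))) 0
        ≤ (Fintype.piFinset S).card
          * ((Fintype.card J - vd (Z (φ '' (M : Set E)))) / K)) ∧
    ∀ x : ℝ, 1 ≤ x → ∑ s ∈ Fintype.piFinset S, x ^ vd (Z (Set.range (opc col A φ s)))
        ≤ (Fintype.piFinset S).card
          * ((1 + (x - 1) / K) ^ (Fintype.card J - vd (Z (φ '' (M : Set E))))
            * x ^ vd (Z (φ '' (M : Set E)))) := by
  have h0 : ∀ s, vd (U col A φ M ∅ s) ≤ vd (Z (φ '' (M : Set E))) := by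
    intro s
    apply vd_mono
    intro f hf
    rw [mem_U] at hf
    rintro O ⟨e, he, rfl⟩
    exact hf.2 e he (Finset.notMem_empty e)
  have hMM : ∀ s, U col A φ M M s = Z (Set.range (opc col A φ s)) := by
    intro s
    ext f
    rw [mem_U, mem_Z]
    constructor
    · rintro ⟨h1, -⟩ O ⟨j, rfl⟩
      exact h1 j (fun e he heT => absurd he heT)
    · intro h
      exact ⟨fun j _ => h _ ⟨j, rfl⟩, fun e he heT => absurd he heT⟩
  have hp0 : pot φ M ∅ = vd (Z (φ '' (M : Set E))) := by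
    unfold pot
    congr 2
    congr 1
    ext e
    simp
  have hp1 : pot φ M M = Fintype.card J := by
    unfold pot
    rw [← vd_top (G := G)]
    congr 1
    rw [eq_top_iff]
    rintro f - O ⟨e, he, rfl⟩
    exact absurd he.1 he.2
  constructor
  · have h := average_add S M (fun T s => vd (U col A φ M T s)) (pot φ M) _ K hK hS h0
      (fun T _ b hb hbT s => step col A φ hA hφ M hM T b hb hbT s (S b))
    rw [hp0, hp1] at h
    simpa only [hMM] using h
  · intro x hx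
    have h := average_exp S M (fun T s => vd (U col A φ M T s)) (pot φ M) _ K hK hS h0
      (fun T _ b hb hbT s => step col A φ hA hφ M hM T b hb hbT s (S b))
      (fun T _ b hb hbT => pot_le φ hφ M T b hb hbT) x hx
    rw [hp0, hp1] at h
    simpa only [hMM] using h

end

end Pool.Agent.W5h34.AT
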