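import Pool.Agent.W5h34.AT.Trans

set_option autoImplicit false
set_option linter.unusedSectionVars false

open scoped InnerProductSpace InnerProduct ENNReal

/-! Matrices with random coefficients. -/

namespace Pool.Agent.W5h34.AT

open Pool.Agent.W649.ZL

universe u v w z y

section
variable {G : Type u} {K : Type v} {L : Type w} {ι : Type z} [Group G] [Fintype K] [Fintype L]
  [DecidableEq K] [DecidableEq L] [Fintype ι] [DecidableEq ι]

theorem cop_matM (C : K → L → (G →₀ ℂ)) (h : ι → G) (k : ι → K) (j : ι → L) (a : ι → ℂ) (j' : L) :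
    cop (fun k' => C k' j' + matM h k j a k' j')
      = opc j (fun j' => cop (fun k' => C k' j'))
        (fun i => (elem (h i)⁻¹ () (k i) : EE G K →L[ℂ] EE G Unit)) a j' := by
  have e1 : (fun k' => C k' j' + matM h k j a k' j')
      = (fun k' => C k' j') + ∑ i ∈ Finset.univ.filter (fun i => j i = j'),
        Pi.single (k i) (Finsupp.single (h i) (a i)) := by
    funext k'
    rw [Pi.add_apply, Finset.sum_apply, Finset.sum_filter]
    congr 1
    unfold matM
    refine Finset.sum_congr rfl fun i _ => ?_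
    by_cases h1 : j i = j'
    · rw [if_pos h1]
      by_cases h2 : k i = k'
      · rw [if_pos ⟨h2, h1⟩, h2, Pi.single_eq_same]
      · rw [if_neg (fun h => h2 h.1), Pi.single_eq_of_ne (fun h => h2 h.symm)]
    · rw [if_neg h1, if_neg (fun h => h1 h.2)]
  rw [e1, map_add, map_sum]
  unfold opc
  congr 1
  exact Finset.sum_congr rfl fun i _ => cop_single _ _ _

theorem vd_matching (h : ι → G) (k : ι → K) (M : Finset ι)
    (hk : ∀ i ∈ M, ∀ i' ∈ M, k i = k i' → i = i') :
    vd (Z ((fun i => (elem (h i)⁻¹ () (k i) : EE G K →L[ℂ] EE G Unit)) '' (M : Set ι)))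
      = (Fintype.card K : ℝ) - M.card := by
  have hle : Z ((fun i => (elem (h i)⁻¹ () (k i) : EE G K →L[ℂ] EE G Unit)) '' (M : Set ι))
      = cosub G (Finset.univ \ M.image k) := by
    apply le_antisymm
    · intro f hf x k' hk'
      have hk'' : k' ∈ M.image k := by
        by_contra hcon
        exact hk' (Finset.mem_sdiff.2 ⟨Finset.mem_univ _, hcon⟩)
      obtain ⟨i, hi, rfl⟩ := Finset.mem_image.1 hk''
      have hf' : (elem (h i)⁻¹ () (k i) : EE G K →L[ℂ] EE G Unit) f = 0 := hf _ ⟨i, hi, rfl⟩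
      have h1 := elem_apply (I := Unit) (h i)⁻¹ () (k i) f ((h i)⁻¹ * x, ())
      rw [hf', if_pos rfl, inv_inv, mul_inv_cancel_left] at h1
      exact h1.symm
    · rintro f hf O ⟨i, hi, rfl⟩
      ext ⟨u, ⟨⟩⟩
      change (elem (h i)⁻¹ () (k i) : EE G K →L[ℂ] EE G Unit) f (u, ()) = 0
      rw [elem_apply, if_pos rfl]
      apply hf
      intro hcon
      exact (Finset.mem_sdiff.1 hcon).2 (Finset.mem_image_of_mem k hi)
  rw [hle, vd_cosub, Finset.card_sdiff_of_subset (Finset.subset_univ _), Finset.card_univ,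
    Finset.card_image_of_injOn (fun i hi i' hi' h => hk i hi i' hi' h)]
  have h2 : M.card ≤ Fintype.card K := by
    rw [← Finset.card_image_of_injOn (f := k) (fun i hi i' hi' h => hk i hi i' hi' h)]
    exact Finset.card_le_univ _
  rw [Nat.cast_sub h2]

/-- markov for the exponential moments -/
theorem tail {Ω : Type z} (P : Finset Ω) (X : Ω → ℝ) (d r q : ℝ) (hq : 0 ≤ q) (K : ℕ)
    (hK : 0 < K)
    (h : ∀ x : ℝ, 1 ≤ x → ∑ s ∈ P, x ^ X s ≤ P.card * ((1 + (x - 1) / K) ^ q * x ^ d)) :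
    ((P.filter (fun s => d + r ≤ X s)).card : ℝ) ≤ P.card * (2 ^ q / (K : ℝ) ^ r) := by
  have hK1 : (1 : ℝ) ≤ K := by exact_mod_cast hK
  have hK0 : (0 : ℝ) < K := by linarith
  have h1 := h K hK1
  have h2 : (1 + ((K : ℝ) - 1) / K) ≤ 2 := by
    have : ((K : ℝ) - 1) / K ≤ 1 := by
      rw [div_le_one hK0]; linarith
    linarith
  have h2' : (0 : ℝ) ≤ 1 + ((K : ℝ) - 1) / K := by
    have : (0 : ℝ) ≤ ((K : ℝ) - 1) / K := div_nonneg (by linarith) hK0.le
    linarith
  have h3 : ((P.filter (fun s => d + r ≤ X s)).card : ℝ) * (K : ℝ) ^ (d + r)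
      ≤ ∑ s ∈ P, (K : ℝ) ^ X s := by
    rw [← nsmul_eq_mul, ← Finset.sum_const]
    refine le_trans (Finset.sum_le_sum fun s hs => ?_)
      (Finset.sum_le_sum_of_subset_of_nonneg (Finset.filter_subset _ _)
        fun s _ _ => Real.rpow_nonneg hK0.le _)
    exact Real.rpow_le_rpow_of_exponent_le hK1 (Finset.mem_filter.1 hs).2
  have h4 : (P.card : ℝ) * ((1 + ((K : ℝ) - 1) / K) ^ q * (K : ℝ) ^ d)
      ≤ P.card * (2 ^ q * (K : ℝ) ^ d) := by
    apply mul_le_mul_of_nonneg_left _ (Nat.cast_nonneg _)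
    exact mul_le_mul_of_nonneg_right (Real.rpow_le_rpow h2' h2 hq) (Real.rpow_nonneg hK0.le _)
  have h5 := (h3.trans h1).trans h4
  have h6 : (0 : ℝ) < (K : ℝ) ^ (d + r) := Real.rpow_pos_of_pos hK0 _
  rw [← le_div_iff₀ h6] at h5
  refine h5.trans (le_of_eq ?_)
  rw [Real.rpow_add hK0]
  have h7 : (K : ℝ) ^ d ≠ 0 := (Real.rpow_pos_of_pos hK0 _).ne'
  have h8 : (K : ℝ) ^ r ≠ 0 := (Real.rpow_pos_of_pos hK0 _).ne'
  field_simp

/-- a fixed matrix plus a matrix with random coefficients -/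
theorem pattern (C : K → L → (G →₀ ℂ)) (h : ι → G) (k : ι → K) (j : ι → L) (d : ℕ)
    (hd : ∀ S : Finset K, S.card ≤
      (Finset.univ.filter (fun y : L => ∃ i, k i ∈ S ∧ j i = y)).card + d)
    (hdK : d ≤ Fintype.card K)
    (S : ι → Finset ℂ) (N : ℕ) (hN : 0 < N) (hS : ∀ e, N ≤ (S e).card) :
    (∑ a ∈ Fintype.piFinset S,
      max (kerDimM (fun k' j' => C k' j' + matM h k j a k' j') - d) 0
        ≤ (Fintype.piFinset S).card * (((Fintype.card K : ℝ) - d) / N)) ∧
    ∀ x : ℝ, 1 ≤ x → ∑ a ∈ Fintype.piFinset S,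
      x ^ kerDimM (fun k' j' => C k' j' + matM h k j a k' j')
        ≤ (Fintype.piFinset S).card
          * ((1 + (x - 1) / N) ^ ((Fintype.card K : ℝ) - d) * x ^ (d : ℝ)) := by
  obtain ⟨M, hM, hMk, hMj⟩ := hall_deficiency k j d hd
  -- shrink the matching
  obtain ⟨M', hM', hc⟩ : ∃ M' ⊆ M, M'.card = Fintype.card K - d :=
    Finset.exists_subset_card_eq (by omega)
  have hk' : ∀ i ∈ M', ∀ i' ∈ M', k i = k i' → i = i' := fun i hi i' hi' =>
    hMk i (hM' hi) i' (hM' hi')
  have hj' : Set.InjOn j (M' : Set ι) := fun i hi i' hi' he =>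
    hMj i (hM' hi) i' (hM' hi') he
  have hv := vd_matching (G := G) h k M' hk'
  rw [hc, Nat.cast_sub hdK, sub_sub_cancel] at hv
  have hkd : ∀ a : ι → ℂ, kerDimM (fun k' j' => C k' j' + matM h k j a k' j')
      = vd (Z (Set.range (opc j (fun j' => cop (fun k' => C k' j'))
        (fun i => (elem (h i)⁻¹ () (k i) : EE G K →L[ℂ] EE G Unit)) a))) := by
    intro a
    rw [kerDimM_eq']
    congr 3
    funext j'
    exact cop_matM C h k j a j'
  have hmain := coeff_average j (fun j' => cop (fun k' => C k' j'))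
    (fun i => (elem (h i)⁻¹ () (k i) : EE G K →L[ℂ] EE G Unit))
    (fun _ => cop_eqv _) (fun _ => elem_eqv _ _ _) M' hj' S N hN (fun e _ => hS e)
  rw [hv] at hmain
  refine ⟨le_trans (le_of_eq (Finset.sum_congr rfl fun a _ => ?_)) hmain.1, fun x hx => ?_⟩
  · rw [hkd]
  · refine le_trans (le_of_eq (Finset.sum_congr rfl fun a _ => ?_)) (hmain.2 x hx)
    rw [hkd]

/-- a matrix plus a matrix whose columns are multiplied by random numbers -/
theorem columns (C B : K → L → (G →₀ ℂ)) (S : L → Finset ℂ) (N : ℕ) (hN : 0 < N)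
    (hS : ∀ e, N ≤ (S e).card) :
    (∑ a ∈ Fintype.piFinset S,
      max (kerDimM (fun k' j' => C k' j' + a j' • B k' j') - kerDimM B) 0
        ≤ (Fintype.piFinset S).card * (((Fintype.card K : ℝ) - kerDimM B) / N)) ∧
    ∀ x : ℝ, 1 ≤ x → ∑ a ∈ Fintype.piFinset S,
      x ^ kerDimM (fun k' j' => C k' j' + a j' • B k' j')
        ≤ (Fintype.piFinset S).card
          * ((1 + (x - 1) / N) ^ ((Fintype.card K : ℝ) - kerDimM B) * x ^ (kerDimM B)) := by
  have hcol : ∀ (a : L → ℂ) (j' : L), cop (fun k' => C k' j' + a j' • B k' j')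
      = opc (id : L → L) (fun j' => cop (fun k' => C k' j'))
        (fun j' => cop (fun k' => B k' j')) a j' := by
    intro a j'
    have e1 : (fun k' => C k' j' + a j' • B k' j')
        = (fun k' => C k' j') + a j' • (fun k' => B k' j') := rfl
    rw [e1, map_add, map_smul]
    unfold opc
    congr 1
    rw [Finset.sum_filter]
    simp
  have hkd : ∀ a : L → ℂ, kerDimM (fun k' j' => C k' j' + a j' • B k' j')
      = vd (Z (Set.range (opc (id : L → L) (fun j' => cop (fun k' => C k' j'))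
        (fun j' => cop (fun k' => B k' j')) a))) := by
    intro a
    rw [kerDimM_eq']
    congr 3
    funext j'
    exact hcol a j'
  have hB : vd (Z ((fun j' => cop (fun k' => B k' j')) '' ((Finset.univ : Finset L) : Set L)))
      = kerDimM B := by
    rw [kerDimM_eq', Finset.coe_univ, Set.image_univ]
  have hmain := coeff_average (id : L → L) (fun j' => cop (fun k' => C k' j'))
    (fun j' => cop (fun k' => B k' j'))
    (fun _ => cop_eqv _) (fun _ => cop_eqv _) Finset.univ (Set.injOn_id _) S N hN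
    (fun e _ => hS e)
  rw [hB] at hmain
  refine ⟨le_trans (le_of_eq (Finset.sum_congr rfl fun a _ => ?_)) hmain.1, fun x hx => ?_⟩
  · rw [hkd]
  · refine le_trans (le_of_eq (Finset.sum_congr rfl fun a _ => ?_)) (hmain.2 x hx)
    rw [hkd]

/-- the operator of a matrix -/
noncomputable def op (A : K → L → (G →₀ ℂ)) : EE G K →L[ℂ] EE G L :=
  ∑ j : L, (elem 1 j () : EE G Unit →L[ℂ] EE G L).comp (cop (fun k => A k j))

theorem op_apply (A : K → L → (G →₀ ℂ)) (f : EE G K) (u : G) (j : L) :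
    op A f (u, j) = cop (fun k => A k j) f (u, ()) := by
  unfold op
  rw [sum_apply, sum_apply_EE, Finset.sum_eq_single j]
  · change (if j = j then cop (fun k => A k j) f (1⁻¹ * u, ()) else 0) = _
    rw [if_pos rfl, inv_one, one_mul]
  · intro b _ hb
    change (if j = b then cop (fun k => A k b) f (1⁻¹ * u, ()) else 0) = _
    rw [if_neg (fun h => hb h.symm)]
  · intro h
    exact absurd (Finset.mem_univ _) h

theorem op_eqv (A : K → L → (G →₀ ℂ)) : Eqv (op A) := by
  intro k f
  ext ⟨u, j⟩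
  rw [op_apply, cop_eqv]
  change cop _ f (u * k, ()) = op A f (u * k, j)
  rw [op_apply]

theorem ker_op (A : K → L → (G →₀ ℂ)) :
    LinearMap.ker (op A : EE G K →ₗ[ℂ] EE G L) = Z (Set.range fun j : L => cop (fun k => A k j)) := by
  ext f
  rw [mem_Z, LinearMap.mem_ker]
  constructor
  · rintro h O ⟨j, rfl⟩
    ext ⟨u, ⟨⟩⟩
    change cop (fun k => A k j) f (u, ()) = 0
    rw [← op_apply]
    have h' : op A f = 0 := h
    rw [h']
    rfl
  · intro h
    change op A f = 0
    ext ⟨u, j⟩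
    rw [op_apply, h _ ⟨j, rfl⟩]
    rfl

/-- the linear pencils -/
theorem pencils (A B : K → L → (G →₀ ℂ)) (S : Finset ℂ) :
    ∑ s ∈ S, max (kerDimM (fun k' j' => A k' j' + s • B k' j') - kerDimM B) 0
      ≤ min (Fintype.card L : ℝ) (Fintype.card K - kerDimM B) := by
  have hop : ∀ s : ℂ, op (fun k' j' => A k' j' + s • B k' j') = op A + s • op B := by
    intro s
    ext f ⟨u, j⟩
    rw [op_apply]
    change _ = op A f (u, j) + s * op B f (u, j)
    rw [op_apply, op_apply]
    have e1 : (fun k' => A k' j + s • B k' j) = (fun k' => A k' j) + s • (fun k' => B k' j) := rfl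
    rw [e1, map_add, map_smul]
    rfl
  have h := pencil_finset (⊤ : Submodule ℂ (EE G K)) (fun k f _ => Submodule.mem_top)
    isClosed_univ (op A) (op B) (op_eqv A) (op_eqv B) S
  simp only [top_inf_eq, vd_top] at h
  rw [ker_op, ← kerDimM_eq'] at h
  refine le_trans (le_of_eq (Finset.sum_congr rfl fun s _ => ?_)) h
  rw [← hop, ker_op, ← kerDimM_eq']

end

end Pool.Agent.W5h34.AT
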