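import Pool.Agent.W5h34.AT.Op

set_option autoImplicit false
set_option linter.unusedSectionVars false

open scoped InnerProductSpace InnerProduct ENNReal

/-! From matrices over the group ring to families of columns. -/

namespace Pool.Agent.W5h34.AT

open Pool.Agent.W649.ZL

universe u v w z y

section
variable {G : Type u} {K : Type v} {L : Type w} [Group G] [Fintype K] [DecidableEq K]

/-- the operator of a column -/
noncomputable def cop : (K → (G →₀ ℂ)) →ₗ[ℂ] (EE G K →L[ℂ] EE G Unit) :=
  ∑ k : K, (Finsupp.linearCombination ℂ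
    (fun t : G => (elem t⁻¹ () k : EE G K →L[ℂ] EE G Unit))) ∘ₗ LinearMap.proj k

theorem cop_eq (a : K → (G →₀ ℂ)) :
    cop a = ∑ k : K, ∑ t ∈ (a k).support, a k t • (elem t⁻¹ () k : EE G K →L[ℂ] EE G Unit) := by
  unfold cop
  rw [LinearMap.sum_apply]
  refine Finset.sum_congr rfl fun k _ => ?_
  rw [LinearMap.comp_apply, LinearMap.proj_apply, Finsupp.linearCombination_apply]
  rfl

theorem cop_apply (a : K → (G →₀ ℂ)) (f : EE G K) (u : G) :
    cop a f (u, ()) = ∑ k : K, ∑ t ∈ (a k).support, a k t * f (t * u, k) := by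
  rw [cop_eq, sum_apply, sum_apply_EE]
  refine Finset.sum_congr rfl fun k _ => ?_
  rw [sum_apply, sum_apply_EE]
  refine Finset.sum_congr rfl fun t _ => ?_
  change a k t * (if () = () then f (t⁻¹⁻¹ * u, k) else 0) = _
  rw [if_pos rfl, inv_inv]

theorem cop_eqv (a : K → (G →₀ ℂ)) : Eqv (cop a) := by
  intro k f
  ext ⟨u, ⟨⟩⟩
  rw [cop_apply]
  change _ = cop a f (u * k, ())
  rw [cop_apply]
  refine Finset.sum_congr rfl fun i _ => Finset.sum_congr rfl fun t _ => ?_
  change a i t * f (t * u * k, i) = _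
  rw [mul_assoc]

theorem cop_single (k : K) (t : G) (c : ℂ) :
    cop (Pi.single k (Finsupp.single t c)) = c • (elem t⁻¹ () k : EE G K →L[ℂ] EE G Unit) := by
  unfold cop
  rw [LinearMap.sum_apply, Finset.sum_eq_single k]
  · rw [LinearMap.comp_apply, LinearMap.proj_apply, Pi.single_eq_same,
      Finsupp.linearCombination_single]
  · intro b _ hb
    rw [LinearMap.comp_apply, LinearMap.proj_apply, Pi.single_eq_of_ne hb, map_zero]
  · intro h
    exact absurd (Finset.mem_univ _) h

theorem flp_image' (A : K → L → (G →₀ ℂ)) :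
    flp '' kernM A = (Z (Set.range fun j : L => cop (fun k => A k j)) : Set (EE G K)) := by
  have key : ∀ (x : lp (fun _ : K × G => ℂ) 2) (g : G) (j : L),
      cop (fun k => A k j) (flp x) (g⁻¹, ()) = ∑ k : K, ∑ h ∈ (A k j).support,
        x (k, g * h⁻¹) * A k j h := by
    intro x g j
    rw [cop_apply]
    refine Finset.sum_congr rfl fun k _ => Finset.sum_congr rfl fun t _ => ?_
    rw [flp_apply, mul_comm, mul_inv_rev, inv_inv]
  ext F
  rw [SetLike.mem_coe, mem_Z]
  constructor
  · rintro ⟨x, hx, rfl⟩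
    rintro O ⟨j, rfl⟩
    ext ⟨u, ⟨⟩⟩
    have h := key x u⁻¹ j
    rw [inv_inv] at h
    change cop (fun k => A k j) (flp x) (u, ()) = 0
    rw [h]
    exact hx j u⁻¹
  · intro h
    obtain ⟨x, rfl⟩ := flp_surj F
    refine ⟨x, fun j g => ?_, rfl⟩
    rw [← key, h _ ⟨j, rfl⟩]
    rfl

open Classical in
theorem kerDimM_eq' (A : K → L → (G →₀ ℂ)) :
    kerDimM A = vd (Z (Set.range fun j : L => cop (fun k => A k j))) := by
  unfold kerDimM
  rw [vd_eq_infDist _ (Z_closed _)]
  refine Finset.sum_congr rfl fun i _ => ?_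
  rw [← flp_image', ← flp_single, Metric.infDist_image isometry_flp]

end

end Pool.Agent.W5h34.AT
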